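import Pool.Agent.AT5.Stmts2
import Pool.Agent.Helper62_AT3.CO2

/-!
# Squad AT5, row CO5: orthogonality for the functions `s ↦ χ(u s b)`
-/

open scoped BigOperators

noncomputable section

namespace Pool.Agent.PP.T5.H89

open Pool.Agent.Helper51_AWC Pool.Agent.Helper79_WRA Pool.Agent.PP Pool.Agent.PP.KF
open Pool.Agent.PP.K9 Pool.Agent.PP.K9.H97 Pool.Agent.PP.H75 Pool.Agent.PP.T3 Pool.Agent.PP.T2
open Pool.Agent.PP.T3.H62

attribute [local instance] Ideal.Quotient.field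

section tools

variable {M : Ideal (integralClosure ℤ ℂ)} [M.IsMaximal]

/-- transport of the characters of a block along an isomorphism -/
theorem irrE_equiv {A B : Type} [Group A] [Finite A] [Group B] [Finite B] (φ : A ≃* B)
    {b : A → FF M} (hb : IsCl b) {κ : A → ℂ} (hκ : κ ∈ IrrE M b) :
    (fun y => κ (φ.symm y)) ∈ IrrE M (fun y => b (φ.symm y)) := by
  classical
  have hp : H75.push φ.toMonoidHom b = fun y => b (φ.symm y) := by
    funext y
    unfold H75.push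
    rw [finsum_eq_single _ (φ.symm y)]
    · rw [finsum_eq_if]
      have : φ.toMonoidHom (φ.symm y) = y := φ.apply_symm_apply y
      rw [if_pos this]
    · intro x hx
      rw [finsum_eq_if, if_neg]
      intro h
      apply hx
      rw [← h]
      exact (φ.symm_apply_apply x).symm
  have h1 := (H3.psi M A B φ.toMonoidHom φ.surjective b hb).1
  rw [hp] at h1
  rw [h1]
  refine ⟨H3.irr_infl (p := φ.symm.toMonoidHom) φ.symm.surjective hκ.1, ?_⟩
  have e1 : (fun a : A => κ (φ.symm (φ.toMonoidHom a))) = κ := by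
    funext a
    change κ (φ.symm (φ a)) = κ a
    rw [φ.symm_apply_apply]
  change (fun a : A => κ (φ.symm (φ.toMonoidHom a))) ∈ IrrE M b
  rw [e1]
  exact hκ

/-- no character belongs to two orthogonal idempotents -/
theorem irrE_disj {G : Type} [Group G] [Finite G] {e e' : G → FF M} (he : IsIdem e)
    (he' : IsIdem e') (h : mulF e e' = 0) {χ : G → ℂ} (h1 : χ ∈ IrrE M e)
    (h2 : χ ∈ IrrE M e') : False := by
  have := Fintype.ofFinite G
  have h3 := H50.res_mul (M := M) he.1 he'.1 h1.1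
  rw [h, H50.res_zero, h1.2, h2.2, one_mul] at h3
  exact zero_ne_one h3

omit [M.IsMaximal] in
theorem irrE_finite {G : Type} [Group G] [Finite G] (e : G → FF M) : (IrrE M e).Finite := by
  have := Fintype.ofFinite G
  exact (Set.toFinite (Irr G)).subset fun θ hθ => hθ.1

/-- the kernel as a finite sum -/
theorem kr_eq {G : Type} [Group G] [Finite G] (C : Subgroup G) (b : G → FF M) (s c : C) :
    kr M C b s c = ∑ κ ∈ (irrE_finite (M := M) (fun t : C => b t)).toFinset, κ s * κ c⁻¹ := by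
  unfold kr
  rw [finsum_mem_eq_finite_toFinset_sum _ (irrE_finite (M := M) (fun t : C => b t))]
  refine Finset.sum_congr rfl fun κ hκ => ?_
  have h1 : κ ∈ IrrE M (fun t : C => b t) := (Set.Finite.mem_toFinset _).1 hκ
  rw [H75.ext0_apply, H75.ext0_apply, H94.irr_star h1.1]

/-- the kernel vanishes at a singular element -/
theorem kr_sing {ℓ : ℕ} [Fact ℓ.Prime] (hM : (ℓ : integralClosure ℤ ℂ) ∈ M) {G : Type} [Group G]
    [Finite G] (C : Subgroup G) {b : G → FF M} (hb : IsIdem (fun t : C => b t)) (s c : C)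
    (hs : Reg ℓ s) (hc : ¬ Reg ℓ c) : kr M C b s c = 0 := by
  have h1 := wbo_ ℓ M hM C (fun t : C => b t) hb s⁻¹ c⁻¹
    (by unfold Reg at hs ⊢; rwa [orderOf_inv]) (by
      intro h
      apply hc
      unfold Reg at h ⊢
      rwa [orderOf_inv] at h)
  rw [finsum_mem_eq_finite_toFinset_sum _ (irrE_finite (M := M) (fun t : C => b t))] at h1
  rw [kr_eq, ← h1]
  refine Finset.sum_congr rfl fun κ _ => ?_
  rw [inv_inv]

end tools

theorem reg_of_coe {G : Type} [Group G] {ℓ : ℕ} {C : Subgroup G} {s : C} (hs : Reg ℓ (s : G)) :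
    Reg ℓ s := by
  unfold Reg at hs ⊢
  rwa [Subgroup.orderOf_coe] at hs

/-- CO5 -/
theorem co5 (ker : KerStmt) : Co5Stmt := by
  intro ℓ hℓ M _ hM G _ _ u u' hu hu' b b' hb hb' hcon s hs hsr s' hs' hsr'
  classical
  have := Fintype.ofFinite G
  obtain ⟨A, hA⟩ : ∃ A : G → ℂ, A = fun g => (Nat.card (Cu u) : ℂ)⁻¹ *
      (if g ∈ Cu u ∧ Reg ℓ g then kr M (Cu u) b s g else 0) := ⟨_, rfl⟩
  obtain ⟨A', hA'⟩ : ∃ A' : G → ℂ, A' = fun g => (Nat.card (Cu u') : ℂ)⁻¹ *
      (if g ∈ Cu u' ∧ Reg ℓ g then kr M (Cu u') b' s' g else 0) := ⟨_, rfl⟩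
  have hreg : ∀ g, A g ≠ 0 → g ∈ Cu u ∧ Reg ℓ g := by
    intro g hg
    by_contra hcon'
    apply hg
    rw [hA]
    simp only
    rw [if_neg hcon', mul_zero]
  have hreg' : ∀ g, A' g ≠ 0 → g ∈ Cu u' ∧ Reg ℓ g := by
    intro g hg
    by_contra hcon'
    apply hg
    rw [hA']
    simp only
    rw [if_neg hcon', mul_zero]
  have e1 : ∀ χ ∈ Irr G, gv M (Cu u) (u * s) b χ = chv (fun g => A (u⁻¹ * g)) χ := by
    intro χ hχ
    rw [ker ℓ M hM G u u (fun c hc => (comm_Cu hc).symm.eq) b hb s hs hsr χ hχ]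
    change _ = ∑ᶠ g, A (u⁻¹ * g) * χ g
    rw [finsum_eq_sum_of_fintype, finsum_eq_sum_of_fintype,
      ← Equiv.sum_comp (Equiv.mulLeft u) (fun g => A (u⁻¹ * g) * χ g), Finset.mul_sum, hA]
    refine Finset.sum_congr rfl fun g _ => ?_
    simp only [Equiv.coe_mulLeft, inv_mul_cancel_left]
    rw [finsum_eq_if]
    split_ifs
    · ring
    · ring
  have e2 : ∀ χ ∈ Irr G, starRingEnd ℂ (gv M (Cu u') (u' * s') b' χ) =
      chv (fun g => starRingEnd ℂ (A' (u' * g)⁻¹)) χ := by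
    intro χ hχ
    rw [ker ℓ M hM G u' u' (fun c hc => (comm_Cu hc).symm.eq) b' hb' s' hs' hsr' χ hχ]
    change _ = ∑ᶠ g, starRingEnd ℂ (A' (u' * g)⁻¹) * χ g
    rw [finsum_eq_sum_of_fintype, finsum_eq_sum_of_fintype,
      ← Equiv.sum_comp ((Equiv.inv G).trans (Equiv.mulLeft u'⁻¹))
        (fun g => starRingEnd ℂ (A' (u' * g)⁻¹) * χ g), Finset.mul_sum, map_sum]
    refine Finset.sum_congr rfl fun g _ => ?_
    have h1 : ((Equiv.inv G).trans (Equiv.mulLeft u'⁻¹)) g = u'⁻¹ * g⁻¹ := rfl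
    rw [h1]
    have h2 : (u' * (u'⁻¹ * g⁻¹))⁻¹ = g := by group
    rw [h2, finsum_eq_if]
    by_cases hg : g ∈ Cu u' ∧ Reg ℓ g
    · rw [if_pos hg, hA']
      simp only
      rw [if_pos hg, map_mul, map_mul, map_mul, H94.irr_star hχ, mul_assoc]
      congr 3
      rw [mul_inv_rev]
      exact ((comm_Cu hg.1).inv_inv).eq
    · rw [if_neg hg, hA']
      simp only
      rw [if_neg hg, mul_zero, map_zero, zero_mul]
  have e6 : ∑ᶠ χ ∈ Irr G, gv M (Cu u) (u * s) b χ *
      starRingEnd ℂ (gv M (Cu u') (u' * s') b' χ) =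
      ∑ᶠ χ ∈ Irr G, chv (fun g => A (u⁻¹ * g)) χ *
        chv (fun g => starRingEnd ℂ (A' (u' * g)⁻¹)) χ := by
    refine finsum_mem_congr rfl fun χ hχ => ?_
    rw [e1 χ hχ, e2 χ hχ]
  rw [e6, Pool.Agent.PP.KF.trc]
  obtain ⟨N, -, hN⟩ := H27.prt ℓ G
  refine finsum_eq_zero_of_forall_eq_zero fun x => ?_
  by_cases hx : x * u' * x⁻¹ = u
  · have h0 := hcon x hx
    let φ := cjE hx
    have hcx : ∀ z, z ∈ Cu u ↔ x⁻¹ * z * x ∈ Cu u' := by
      intro z
      constructor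
      · intro hz
        exact (φ.symm ⟨z, hz⟩).2
      · intro hz
        have h1 := (φ ⟨x⁻¹ * z * x, hz⟩).2
        change x * (x⁻¹ * z * x) * x⁻¹ ∈ Cu u at h1
        have h2 : x * (x⁻¹ * z * x) * x⁻¹ = z := by group
        rwa [h2] at h1
    have hux : x⁻¹ * u * x = u' := by rw [← hx]; group
    have h5 : IsIdem (fun t : Cu u => H75.cj x b' t) := by
      refine ⟨?_, ?_⟩
      · intro z y
        change b' (x⁻¹ * ((y : G) * z * (y : G)⁻¹) * x) = b' (x⁻¹ * z * x)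
        have h6 := hb'.idem.1 (φ.symm z) (φ.symm y)
        have h7 : ((φ.symm y * φ.symm z * (φ.symm y)⁻¹ : Cu u') : G) =
            x⁻¹ * ((y : G) * z * (y : G)⁻¹) * x := by
          rw [← map_inv, ← map_mul, ← map_mul]
          rfl
        change b' ((φ.symm y * φ.symm z * (φ.symm y)⁻¹ : Cu u') : G) = b' (x⁻¹ * z * x) at h6
        rw [h7] at h6
        exact h6
      · have hs3 : ∀ z, z ∉ Cu u → H75.cj x b' z = 0 := by
          intro z hz
          change b' (x⁻¹ * z * x) = 0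
          apply hb'.supp
          intro h
          exact hz ((hcx z).2 h)
        rw [← mulF_res (Cu u) (H75.cj x b') hs3, ← cj_mulF, hb'.mul]
    have h6 : mulF (fun t : Cu u => b t) (fun t : Cu u => H75.cj x b' t) = 0 := by
      rw [← mulF_res (Cu u) (H75.cj x b') hb.supp, h0]
      rfl
    -- orthogonality of a character of `b` and a character of `cj x b'`
    have h7 : ∀ κ ∈ IrrE M (fun t : Cu u => b t), ∀ κ' ∈ IrrE M (fun t : Cu u' => b' t),
        ∑ h : Cu u, κ' (φ.symm h) * κ h⁻¹ = 0 := by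
      intro κ hκ κ' hκ'
      have h8 := irrE_equiv (M := M) φ hb'.idem.1 hκ'
      have h9 : (fun y : Cu u => b' ((φ.symm y : Cu u') : G)) =
          fun t : Cu u => H75.cj x b' t := rfl
      rw [h9] at h8
      refine irr_orth_ne (χ := fun y => κ' (φ.symm y)) h8.1 hκ.1 fun heq => ?_
      rw [heq] at h8
      exact irrE_disj hb.idem h5 h6 hκ h8
    -- the sum over `C(u)`
    have h8 : ∑ h : Cu u, kr M (Cu u) b s h *
        starRingEnd ℂ (kr M (Cu u') b' s' (φ.symm h : Cu u')) = 0 := by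
      have k1 : ∀ h : Cu u, kr M (Cu u) b s h =
          ∑ κ ∈ (irrE_finite (M := M) (fun t : Cu u => b t)).toFinset, κ ⟨s, hs⟩ * κ h⁻¹ :=
        fun h => kr_eq (Cu u) b ⟨s, hs⟩ h
      have k2 : ∀ h : Cu u, starRingEnd ℂ (kr M (Cu u') b' s' (φ.symm h : Cu u')) =
          ∑ κ' ∈ (irrE_finite (M := M) (fun t : Cu u' => b' t)).toFinset,
            starRingEnd ℂ (κ' ⟨s', hs'⟩) * κ' (φ.symm h) := by
        intro h
        have k3 := kr_eq (M := M) (Cu u') b' ⟨s', hs'⟩ (φ.symm h)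
        change kr M (Cu u') b' s' (φ.symm h : Cu u') = _ at k3
        rw [k3, map_sum]
        refine Finset.sum_congr rfl fun κ' hκ' => ?_
        have h1 : κ' ∈ IrrE M (fun t : Cu u' => b' t) := (Set.Finite.mem_toFinset _).1 hκ'
        rw [map_mul, H94.irr_star h1.1 (φ.symm h)⁻¹, inv_inv]
      have k4 : ∀ h : Cu u, kr M (Cu u) b s h *
          starRingEnd ℂ (kr M (Cu u') b' s' (φ.symm h : Cu u')) =
          ∑ κ ∈ (irrE_finite (M := M) (fun t : Cu u => b t)).toFinset,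
            ∑ κ' ∈ (irrE_finite (M := M) (fun t : Cu u' => b' t)).toFinset,
              κ ⟨s, hs⟩ * starRingEnd ℂ (κ' ⟨s', hs'⟩) * (κ' (φ.symm h) * κ h⁻¹) := by
        intro h
        rw [k1, k2, Finset.sum_mul_sum]
        refine Finset.sum_congr rfl fun κ _ => Finset.sum_congr rfl fun κ' _ => ?_
        ring
      rw [Finset.sum_congr rfl fun h _ => k4 h, Finset.sum_comm]
      refine Finset.sum_eq_zero fun κ hκ => ?_
      rw [Finset.sum_comm]
      refine Finset.sum_eq_zero fun κ' hκ' => ?_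
      rw [← Finset.mul_sum, h7 κ ((Set.Finite.mem_toFinset _).1 hκ) κ'
        ((Set.Finite.mem_toFinset _).1 hκ'), mul_zero]
    -- values of `A` and `A'`
    have h9 : ∀ h : Cu u, A h = (Nat.card (Cu u) : ℂ)⁻¹ * kr M (Cu u) b s h := by
      intro h
      rw [hA]
      simp only
      by_cases hr : Reg ℓ (h : G)
      · rw [if_pos ⟨h.2, hr⟩]
      · rw [if_neg (fun h' => hr h'.2)]
        have k := kr_sing (M := M) hM (Cu u) hb.idem ⟨s, hs⟩ h (reg_of_coe hsr)
          (fun h' => hr (reg_coe h'))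
        change kr M (Cu u) b s h = 0 at k
        rw [k]
    have h10 : ∀ h : Cu u', A' h = (Nat.card (Cu u') : ℂ)⁻¹ * kr M (Cu u') b' s' h := by
      intro h
      rw [hA']
      simp only
      by_cases hr : Reg ℓ (h : G)
      · rw [if_pos ⟨h.2, hr⟩]
      · rw [if_neg (fun h' => hr h'.2)]
        have k := kr_sing (M := M) hM (Cu u') hb'.idem ⟨s', hs'⟩ h (reg_of_coe hsr')
          (fun h' => hr (reg_coe h'))
        change kr M (Cu u') b' s' h = 0 at k
        rw [k]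
    rw [finsum_eq_sum_of_fintype,
      ← Equiv.sum_comp (Equiv.mulLeft u)
        (fun g => A (u⁻¹ * g) * starRingEnd ℂ (A' (u' * (x⁻¹ * g⁻¹ * x))⁻¹))]
    simp only [Equiv.coe_mulLeft, inv_mul_cancel_left]
    have h11 : ∑ g : G, A g * starRingEnd ℂ (A' (u' * (x⁻¹ * (u * g)⁻¹ * x))⁻¹) =
        ∑ h : Cu u, A h * starRingEnd ℂ (A' (u' * (x⁻¹ * (u * (h : G))⁻¹ * x))⁻¹) := by
      symm
      refine Finset.sum_bij_ne_zero (fun h _ _ => (h : G)) (fun _ _ _ => Finset.mem_univ _)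
        (fun h₁ _ _ h₂ _ _ h12 => Subtype.ext h12) ?_ (fun _ _ _ => rfl)
      intro g _ hg
      have hgA : A g ≠ 0 := left_ne_zero_of_mul hg
      exact ⟨⟨g, (hreg g hgA).1⟩, Finset.mem_univ _, hg, rfl⟩
    rw [h11]
    have h12 : ∀ h : Cu u, A h * starRingEnd ℂ (A' (u' * (x⁻¹ * (u * (h : G))⁻¹ * x))⁻¹) =
        ((Nat.card (Cu u) : ℂ)⁻¹ * (Nat.card (Cu u') : ℂ)⁻¹) * (kr M (Cu u) b s h *
        starRingEnd ℂ (kr M (Cu u') b' s' (φ.symm h : Cu u'))) := by
      intro h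
      have k1 : (u' * (x⁻¹ * (u * (h : G))⁻¹ * x))⁻¹ = ((φ.symm h : Cu u') : G) := by
        have k2 : ((φ.symm h : Cu u') : G) = x⁻¹ * h * x := rfl
        have k3 : Commute (x⁻¹ * (h : G) * x) u' := comm_Cu ((hcx h).1 h.2)
        rw [k2]
        calc (u' * (x⁻¹ * (u * (h : G))⁻¹ * x))⁻¹ =
            (x⁻¹ * u * x) * (x⁻¹ * h * x) * u'⁻¹ := by group
          _ = (x⁻¹ * h * x) * u' * u'⁻¹ := by rw [hux, k3.symm.eq]
          _ = x⁻¹ * h * x := by group
      rw [k1, h9, h10, map_mul, map_inv₀, Complex.conj_natCast]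
      ring
    rw [Finset.sum_congr rfl fun h _ => h12 h, ← Finset.mul_sum, h8, mul_zero]
  · refine finsum_eq_zero_of_forall_eq_zero fun g => ?_
    by_contra hne
    have h1 : A (u⁻¹ * g) ≠ 0 := left_ne_zero_of_mul hne
    have h2 : A' (u' * (x⁻¹ * g⁻¹ * x))⁻¹ ≠ 0 := by
      intro h
      apply hne
      rw [h, map_zero, mul_zero]
    obtain ⟨r, hr⟩ : ∃ r, r = u⁻¹ * g := ⟨_, rfl⟩
    obtain ⟨r', hr'⟩ : ∃ r', r' = (u' * (x⁻¹ * g⁻¹ * x))⁻¹ := ⟨_, rfl⟩
    rw [← hr] at h1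
    rw [← hr'] at h2
    obtain ⟨hsC, hsR⟩ := hreg r h1
    obtain ⟨hsC', hsR'⟩ := hreg' r' h2
    have hg : g = u * r := by rw [hr]; group
    have h3 : x⁻¹ * (r * u) * x = r' * u' := by
      rw [(comm_Cu hsC).eq, ← hg, hr']
      group
    have k1 : (r * u) ^ N = r := hN r u (comm_Cu hsC) hsR hu
    have k2 : (r' * u') ^ N = r' := hN r' u' (comm_Cu hsC') hsR' hu'
    have h5 : x⁻¹ * r * x = r' := by
      rw [← k2, ← h3]
      have h6 : x⁻¹ * (r * u) * x = x⁻¹ * (r * u) * (x⁻¹)⁻¹ := by group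
      rw [h6, conj_pow, k1]
      group
    apply hx
    have h7 : x⁻¹ * (r * u) * x = (x⁻¹ * r * x) * (x⁻¹ * u * x) := by group
    rw [h7, h5] at h3
    have h8 : x⁻¹ * u * x = u' := mul_left_cancel h3
    rw [← h8]
    group

end Pool.Agent.PP.T5.H89
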